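import Mathlib
import Pool.Agent.H.MP_1e2692_co.Tab

set_option autoImplicit false

namespace Pool.Agent.Results.MP_1e2692_co.No

/-- cops at `c`, robber at `r`, cops to move; `M` is the relation of allowed moves -/
inductive Win {V : Type} {k : ℕ} (M : V → V → Prop) : (Fin k → V) → V → Prop
  | start (c : Fin k → V) (r : V) (i : Fin k) (h : c i = r) : Win M c r
  | capture (c c' : Fin k → V) (r : V) (hc : ∀ i, M (c i) (c' i)) (i : Fin k) (h : c' i = r) :
      Win M c r
  | step (c c' : Fin k → V) (r : V) (hc : ∀ i, M (c i) (c' i))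
      (h : ∀ r', M r r' → Win M c' r') : Win M c r

/-- `k` cops have a winning strategy -/
def CopsWin {V : Type} (M : V → V → Prop) (k : ℕ) : Prop := ∃ c : Fin k → V, ∀ r, Win M c r

open Pool.Agent.H.MP_1e2692_co in
theorem result : ∃ (n : ℕ) (G : SimpleGraph (Fin n)) (a b : ℕ), 2 ≤ n ∧ G.Connected ∧
    G.Colorable 2 ∧ IsLeast {k | CopsWin (fun u v => G.Adj u v ∨ u = v) k} a ∧
    IsLeast {k | CopsWin G.Adj k} b ∧ b < a := by
  have act : ∀ (m : ℕ) (a b r : Fin 21), en3 tD a b r < m → m ≤ 255 → Win G.Adj ![a, b] r := by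
    intro m
    induction m with
    | zero => intro a b r h; omega
    | succ m ih =>
      intro a b r h hm
      rcases win_step a b r (by omega) with h1 | h1 | ⟨x, y, hx, hy, h1 | h1 | h1⟩
      · exact .start _ _ 0 h1.symm
      · exact .start _ _ 1 h1.symm
      · exact .capture _ ![x, y] _ (Fin.forall_fin_two.mpr ⟨hx, hy⟩) 0 h1
      · exact .capture _ ![x, y] _ (Fin.forall_fin_two.mpr ⟨hx, hy⟩) 1 h1
      · exact .step _ ![x, y] _ (Fin.forall_fin_two.mpr ⟨hx, hy⟩)
          fun z hz => ih x y z (by have := h1 z hz; omega) (by omega)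
  have pas : ∀ (k : ℕ) (hk : k ≤ 2) (c : Fin k → Fin 21) (r : Fin 21),
      Win (fun u v => G.Adj u v ∨ u = v) c r →
      ∀ f : Fin 2 → Fin 21, (∀ i, f (Fin.castLE hk i) = c i) →
        ¬ (ent tS (f 0) (f 1)).testBit r = true := by
    intro k hk c r hw
    have ext : ∀ (c c' : Fin k → Fin 21) (f : Fin 2 → Fin 21),
        (∀ i, G.Adj (c i) (c' i) ∨ c i = c' i) → (∀ i, f (Fin.castLE hk i) = c i) →
        ∃ g : Fin 2 → Fin 21, (∀ i, g (Fin.castLE hk i) = c' i) ∧
          ∀ j, G.Adj (f j) (g j) ∨ f j = g j := by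
      intro c c' f hc hf
      refine ⟨fun j => if h : j.val < k then c' ⟨j, h⟩ else f j, fun i => by simp, fun j => ?_⟩
      by_cases h : j.val < k
      · simp only [h, dite_true]
        have e : f j = c ⟨j, h⟩ := hf ⟨j, h⟩
        rw [e]
        exact hc _
      · simp only [h, dite_false, or_true]
    have two : ∀ (f : Fin 2 → Fin 21) (j : Fin 2), f j = f 0 ∨ f j = f 1 := fun f =>
      Fin.forall_fin_two.mpr ⟨Or.inl rfl, Or.inr rfl⟩
    induction hw with
    | start c r i h =>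
      intro f hf hs
      have h1 := c4 (f 0) (f 1)
      rw [← h, ← hf] at hs
      rcases two f (Fin.castLE hk i) with e | e <;> rw [e] at hs <;> simp [hs] at h1
    | capture c c' r hc i h =>
      intro f hf hs
      obtain ⟨g, hg, hfg⟩ := ext c c' f hc hf
      obtain ⟨h1, h2, -⟩ := safe_step _ _ r _ _ hs (hfg 0) (hfg 1)
      rw [← h, ← hg] at h1 h2
      exact (two g _).elim h1 h2
    | step c c' r hc _ ih =>
      intro f hf hs
      obtain ⟨g, hg, hfg⟩ := ext c c' f hc hf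
      obtain ⟨-, -, z, hz, h⟩ := safe_step _ _ r _ _ hs (hfg 0) (hfg 1)
      exact ih z hz g hg h
  have h2 : 2 ∈ {k | CopsWin G.Adj k} :=
    ⟨![0, 1], fun r => act 255 0 1 r (c7 r) le_rfl⟩
  have h21 : 21 ∈ {k | CopsWin (fun u v => G.Adj u v ∨ u = v) k} :=
    ⟨id, fun r => .start _ _ r rfl⟩
  have hb := Nat.sInf_mem ⟨_, h21⟩
  refine ⟨21, G, sInf _, sInf _, by norm_num, conn, bip, ⟨hb, fun _ h => Nat.sInf_le h⟩,
    ⟨Nat.sInf_mem ⟨_, h2⟩, fun _ h => Nat.sInf_le h⟩, lt_of_le_of_lt (Nat.sInf_le h2) ?_⟩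
  by_contra hlt
  have hk := not_lt.mp hlt
  obtain ⟨c, hc⟩ := hb
  obtain ⟨f, hf⟩ : ∃ f : Fin 2 → Fin 21, ∀ i, f (Fin.castLE hk i) = c i :=
    ⟨fun j => if h : j.val < _ then c ⟨j, h⟩ else 0, fun i => by simp⟩
  obtain ⟨r, hr⟩ := c1 (f 0) (f 1)
  exact pas _ hk c r (hc r) f hf hr

end Pool.Agent.Results.MP_1e2692_co.No
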